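import Pool.Agent.Lib.H8.Xor

/-!
A computable shift-invariant measure with a noncomputable limit set under XOR.
-/

set_option maxHeartbeats 400000

namespace Pool.Agent.Results.MP_02be1f_lc.Q2

open Pool.Agent.Lib.H8 Arith CList Qm Rnd Kc Shc Xor MeasureTheory Filter Topology Classical
open scoped ENNReal

/-- The two-neighbour XOR cellular automaton. -/
def xorCA (x : ℤ → Bool) (i : ℤ) : Bool := xor (x i) (x (i + 1))

/-- The shift. -/
def shift (x : ℤ → Bool) (i : ℤ) : Bool := x (i + 1)

/-- The cylinder of a word. -/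
def cyl (w : List Bool) : Set (ℤ → Bool) := {x | ∀ (i : ℕ) (h : i < w.length), x i = w[i]}

/-- Computable measures: the measure of each cylinder is approximated within `2 ^ (-k)`. -/
def Comp (μ : Measure (ℤ → Bool)) : Prop :=
  ∃ f g : List Bool × ℕ → ℕ, Computable f ∧ Computable g ∧
    ∀ w k, |μ.real (cyl w) - f (w, k) / (g (w, k) + 1)| ≤ 2⁻¹ ^ k

/-- The limit set, as a language. -/
def Lim (μ : Measure (ℤ → Bool)) : Set (List Bool) :=
  {w | ¬ Tendsto (fun n => (μ.map xorCA^[n]).real (cyl w)) atTop (𝓝 0)}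

theorem result : ∃ μ : Measure (ℤ → Bool), IsProbabilityMeasure μ ∧ μ.map shift = μ ∧ Comp μ ∧
    ¬ ComputablePred (· ∈ Lim μ) := by
  have f := @Computable.fst
  have s := @Computable.snd
  obtain ⟨A, a1, a2⟩ := CeAlg.diag 0
  obtain ⟨B, b1, b2⟩ := sig_nf a1
  obtain ⟨a0, a3⟩ : ∃ a, A a := by
    by_contra! n
    exact a2 ((Sig.prim (Primrec.eq.comp Primrec.id Primrec.id)).of_eq fun a => by simp [n])
  let h (n : ℕ) := if B n.unpair then n.unpair.1 else a0
  have h1 : Computable h := cite (cp b1 (u1.pair u2)) u1 (Computable.const _)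
  have h2 (a) : A a ↔ ∃ n, h n = a := ⟨fun k => by
    obtain ⟨t, k⟩ := (b2 a).1 k
    exact ⟨Nat.pair a t, by simp [h, k]⟩, by
      rintro ⟨n, rfl⟩
      simp only [h]
      split_ifs with k
      exacts [(b2 _).2 ⟨_, k⟩, a3]⟩
  let μ : Measure (ℤ → Bool) := .sum fun n => (2⁻¹ ^ (n + 1) / (3 * 2 ^ h n : ℕ) : ℝ≥0∞) •
    ∑ j ∈ Finset.range (3 * 2 ^ h n), .dirac (sh j (y (h n)))
  let c (n : ℕ) (S : Set (ℤ → Bool)) : ℕ :=
    ∑ j ∈ Finset.range (3 * 2 ^ h n), if sh j (y (h n)) ∈ S then 1 else 0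
  have c1 (n S) : c n S ≤ 3 * 2 ^ h n :=
    (Finset.sum_le_card_nsmul _ _ 1 fun _ _ => by split_ifs <;> simp).trans (by simp)
  have e {S} (m : MeasurableSet S) :
      μ S = ∑' n, (2⁻¹ ^ (n + 1) / (3 * 2 ^ h n : ℕ) : ℝ≥0∞) * c n S := by
    simp only [μ, Measure.sum_apply _ m, Measure.smul_apply, Measure.finsetSum_apply,
      Measure.dirac_apply' _ m, smul_eq_mul, c, Set.indicator, Nat.cast_sum, Nat.cast_ite,
      Nat.cast_one, Nat.cast_zero, Pi.one_apply]
  let r (S) (n : ℕ) : ℝ := 2⁻¹ ^ (n + 1) / (3 * 2 ^ h n) * c n S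
  have r0 (S n) : 0 ≤ r S n := by positivity
  have r1 (S n) : r S n ≤ 2⁻¹ ^ (n + 1) := by
    simp only [r]
    rw [div_mul_eq_mul_div, div_le_iff₀ (by positivity)]
    gcongr
    exact_mod_cast c1 n S
  have g (k) : HasSum (fun n => (2⁻¹ : ℝ) ^ (n + k + 1)) (2⁻¹ ^ k) := by
    simpa [pow_add, mul_assoc, mul_comm, mul_left_comm] using
      hasSum_geometric_two.mul_left ((2⁻¹ : ℝ) ^ k * 2⁻¹)
  have r2 (S) : Summable (r S) := .of_nonneg_of_le (r0 S) (r1 S) (g 0).summable
  have e' {S} (m : MeasurableSet S) : μ.real S = ∑' n, r S n := by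
    rw [Measure.real, e m, ENNReal.tsum_toReal_eq fun n => by
      refine ENNReal.mul_ne_top (ENNReal.div_ne_top (by simp) (by simp)) (by simp)]
    simp [r]
  have mc (w) : MeasurableSet (cyl w) := by unfold cyl; measurability
  have mF : Measurable xorCA := by
    refine measurable_pi_lambda _ fun i => ?_
    exact (measurable_of_countable fun q : Bool × Bool => xor q.1 q.2).comp
      ((measurable_pi_apply (X := fun _ : ℤ => Bool) i).prodMk (measurable_pi_apply (i + 1)))
  have mS : Measurable shift := measurable_pi_lambda _ fun i => measurable_pi_apply _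
  have yc {α : Type} [Primcodable α] {a i : α → ℕ} (ha : Computable a) (hi : Computable i) :
      Computable fun x => y (a x) (i x) := by
    have m := Primrec.nat_mod.to_comp
    refine (cand (ceq (m.comp hi (pow_c.comp ha)) (Computable.const 0)) (ceq (m.comp
      (Primrec.nat_div.to_comp.comp hi (pow_c.comp ha)) (Computable.const 3))
        (Computable.const 2)).not).decide.of_eq fun x => ?_
    rw [y, decide_eq_decide, ← Nat.dvd_iff_mod_eq_zero]
    norm_cast
  refine ⟨μ, ⟨?_⟩, ?_, ?_, fun k => a2 ?_⟩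
  · rw [← ENNReal.toReal_eq_one_iff, ← Measure.real, e' .univ, ← pow_zero (2⁻¹ : ℝ),
      ← (g 0).tsum_eq]
    exact tsum_congr fun n => by simp [r, c]
  · ext S m
    rw [Measure.map_apply mS m, e m, e (mS m)]
    refine tsum_congr fun n => congrArg _ (congrArg _ ?_)
    have := Finset.sum_range_succ' (fun j : ℕ => if sh j (y (h n)) ∈ S then 1 else 0) (3 * 2 ^ h n)
    rw [Finset.sum_range_succ, show sh (3 * 2 ^ h n : ℕ) (y (h n)) = sh (0 : ℕ) (y (h n)) by
      ext i; simp [sh, y_per], add_left_inj] at this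
    refine (Finset.sum_congr rfl fun j _ => if_congr ?_ rfl rfl).trans this.symm
    rw [Set.mem_preimage, show shift (sh j (y (h n))) = sh (j + 1 : ℕ) (y (h n)) by
      ext i; simp only [sh, shift]; congr 1; push_cast; ring]
  · let H (k : ℕ) := ∑ n ∈ Finset.range k, h n
    have H1 : Computable H := csumr Computable.id (h1.comp s).to₂
    have c2 : Computable fun q : List Bool × ℕ => c q.2 (cyl q.1) := by
      have := cball (p := fun (z : (List Bool × ℕ) × ℕ) i => y (h z.1.2) (i + z.2 : ℕ) =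
        z.1.1.getD i false) (Computable.list_length.comp (f.comp f)) (ceq (yc (h1.comp
          (s.comp (f.comp f))) (ad s (s.comp f))) ((Primrec.list_getD false).to_comp.comp
            (f.comp (f.comp f)) s))
      refine csumr (ml (Computable.const 3) (pow_c.comp (h1.comp s)))
        (Computable.of_eq (cite this (Computable.const 1) (Computable.const 0)) fun z => ?_)
      exact if_congr (forall₂_congr fun i l => by simp [sh, l]) rfl rfl
    have k2 := s.comp (f (α := List Bool × ℕ) (β := ℕ))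
    refine ⟨_, _, csumr s (ml (c2.comp ((f.comp f).pair s)) (ml (pow_c.comp (sb k2
      (Computable.succ.comp s))) (pow_c.comp (sb (H1.comp k2) (h1.comp s))))).to₂,
      sb (ml (Computable.const 3) (ml (pow_c.comp s) (pow_c.comp (H1.comp s))))
        (Computable.const 1), fun w k => ?_⟩
    rw [← Nat.cast_succ, Nat.succ_eq_add_one, Nat.sub_add_cancel (Nat.succ_le_of_lt (by positivity)),
      e' (mc w), ← (r2 _).sum_add_tsum_nat_add k, Nat.cast_sum, Finset.sum_div,
      Finset.sum_congr rfl fun n l => ?_, add_sub_cancel_left,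
      abs_of_nonneg (tsum_nonneg fun _ => r0 _ _), ← (g k).tsum_eq]
    · exact ((summable_nat_add_iff k).2 (r2 _)).tsum_le_tsum (fun _ => r1 _ _) (g k).summable
    obtain ⟨u, hu⟩ := Nat.exists_eq_add_of_le (Finset.single_le_sum (f := h) (by simp) l : _ ≤ H k)
    obtain ⟨v, rfl⟩ := Nat.exists_eq_add_of_lt (Finset.mem_range.1 l)
    rw [show H (w, n + v + 1).2 = h n + u from hu]
    simp only [r, Nat.succ_eq_add_one, show n + v + 1 - (n + 1) = v by omega,
      Nat.add_sub_cancel_left, inv_pow]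
    push_cast
    field_simp
    ring
  let w (a : ℕ) := (List.range (3 * 2 ^ a + 1)).map fun i : ℕ => y a i
  have w1 : Computable w := cmap (Primrec.list_range.to_comp.comp (Computable.succ.comp
    (ml (Computable.const 3) pow_c))) (yc f s).to₂
  have w2 (a x) : x ∈ cyl (w a) ↔ ∀ i : ℕ, i ≤ 3 * 2 ^ a → x i = y a i := by
    simp [cyl, w]
  refine (CeAlg.cs (cp k w1).not).of_eq fun a => not_congr ?_
  simp only [Lim, Set.mem_ofPred_eq, map_measureReal_apply (mF.iterate _) (mc _),
    e' (mF.iterate _ (mc _)), h2]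
  refine ⟨fun t => by_contra fun o => t (tendsto_const_nhds.congr fun n => ?_), fun ⟨n, o⟩ t => ?_⟩
  · rw [← tsum_zero (β := ℕ)]
    refine tsum_congr fun m => ?_
    simp only [r, c]
    rw [Finset.sum_eq_zero fun j _ => if_neg fun z => ?_]
    · simp
    refine avoid (fun d => o ⟨m, d⟩) n j fun i l => ?_
    rw [← (w2 _ _).1 z i l]
    exact loc n fun k _ => by simp only [sh]; congr 1; ring
  subst o
  refine (ge_of_tendsto' (t.comp (tendsto_id.const_mul_atTop' (show 0 < 3 * 2 ^ h n by positivity)))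
    fun m => le_trans (b := r _ n) ?_ ((r2 _).le_tsum n fun _ _ => r0 _ _)).not_gt
      (show (0 : ℝ) < 2⁻¹ ^ (n + 1) / (3 * 2 ^ h n) * (1 : ℕ) by positivity)
  simp only [r, c]
  gcongr
  refine le_trans ?_ (Finset.single_le_sum (a := 0) (by simp) (by simp))
  rw [if_pos]
  rw [Set.mem_preimage, show sh (0 : ℕ) (y (h n)) = y (h n) by ext; simp [sh], id,
    Function.iterate_mul, Function.iterate_fixed (f := xorCA^[_]) (y_fix _), w2]
  simp

end Pool.Agent.Results.MP_02be1f_lc.Q2
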